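import Mathlib

open MeasureTheory Set Filter Topology
open scoped ENNReal NNReal

namespace Pool.Agent.Results.MP_b039ef_an.RandomTranslations

/-- Euclidean `d`-space. -/
abbrev E (d : ℕ) : Type := EuclideanSpace ℝ (Fin d)

/-- `F` is the attractor `F_t`: nonempty, compact and `F = ⋃ (A_i F + t_i)`. -/
def IsAttractor {d m : ℕ} (A : Fin m → E d →L[ℝ] E d) (t : Fin m → E d) (F : Set (E d)) : Prop :=
  F.Nonempty ∧ IsCompact F ∧ F = ⋃ i, (fun x => A i x + t i) '' F

/-- `N_r(F)`: the least number of sets of diameter at most `r` that cover `F`. -/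
noncomputable def coverNum {X : Type*} [PseudoMetricSpace X] (r : ℝ) (F : Set X) : ℕ :=
  sInf {k : ℕ | ∃ U : Fin k → Set X, F ⊆ ⋃ i, U i ∧ ∀ i, ∀ x ∈ U i, ∀ y ∈ U i, dist x y ≤ r}

/-- The upper bound in the definition of the Assouad dimension. -/
def AssouadBound {X : Type*} [PseudoMetricSpace X] (F : Set X) (s : ℝ) : Prop :=
  ∃ C : ℝ, 0 < C ∧ ∀ x ∈ F, ∀ r R : ℝ, 0 < r → r < R →
    (coverNum r (Metric.closedBall x R ∩ F) : ℝ) ≤ C * (R / r) ^ s

/-- The lower bound in the definition of the lower dimension. -/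
def LowerBound {X : Type*} [PseudoMetricSpace X] (F : Set X) (s : ℝ) : Prop :=
  ∃ C : ℝ, 0 < C ∧ ∀ x ∈ F, ∀ r R : ℝ, 0 < r → r < R → R ≤ Metric.diam F →
    C * (R / r) ^ s ≤ (coverNum r (Metric.closedBall x R ∩ F) : ℝ)

/-- The Assouad dimension. -/
noncomputable def dimA {X : Type*} [PseudoMetricSpace X] (F : Set X) : ℝ≥0∞ :=
  ⨅ (s : ℝ≥0) (_ : AssouadBound F s), (s : ℝ≥0∞)

/-- The lower dimension. -/
noncomputable def dimL {X : Type*} [PseudoMetricSpace X] (F : Set X) : ℝ≥0∞ :=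
  ⨆ (s : ℝ≥0) (_ : LowerBound F s), (s : ℝ≥0∞)

/-! ### Covering numbers -/

section cover
variable {X : Type*} [PseudoMetricSpace X]

lemma coverNum_le_of_finset {ι : Type*} {δ : ℝ} {F : Set X} (s : Finset ι) (U : ι → Set X)
    (h1 : F ⊆ ⋃ i ∈ s, U i) (h2 : ∀ i ∈ s, ∀ x ∈ U i, ∀ y ∈ U i, dist x y ≤ δ) :
    coverNum δ F ≤ s.card := by
  apply Nat.sInf_le
  refine ⟨fun j => U (s.equivFin.symm j), ?_, fun j => h2 _ (s.equivFin.symm j).2⟩
  intro x hx
  obtain ⟨i, hi, hxi⟩ := mem_iUnion₂.mp (h1 hx)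
  refine mem_iUnion.mpr ⟨s.equivFin ⟨i, hi⟩, ?_⟩
  simpa using hxi

lemma exists_cover {δ : ℝ} {F : Set X}
    (h : ∃ k : ℕ, ∃ U : Fin k → Set X, F ⊆ ⋃ i, U i ∧ ∀ i, ∀ x ∈ U i, ∀ y ∈ U i, dist x y ≤ δ) :
    ∃ U : Fin (coverNum δ F) → Set X, F ⊆ ⋃ i, U i ∧
      ∀ i, ∀ x ∈ U i, ∀ y ∈ U i, dist x y ≤ δ :=
  Nat.sInf_mem (s := {k : ℕ | ∃ U : Fin k → Set X, F ⊆ ⋃ i, U i ∧
    ∀ i, ∀ x ∈ U i, ∀ y ∈ U i, dist x y ≤ δ}) h

lemma exists_finite_cover [ProperSpace X] {δ : ℝ} (hδ : 0 < δ) {F : Set X}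
    (hE : Bornology.IsBounded F) :
    ∃ k : ℕ, ∃ U : Fin k → Set X, F ⊆ ⋃ i, U i ∧ ∀ i, ∀ x ∈ U i, ∀ y ∈ U i, dist x y ≤ δ := by
  obtain ⟨t, -, htf, hcov⟩ := hE.isCompact_closure.finite_cover_balls (e := δ / 2) (by linarith)
  set s := htf.toFinset with hs
  refine ⟨s.card, fun j => Metric.ball ((s.equivFin.symm j : s) : X) (δ / 2), ?_, ?_⟩
  · intro x hx
    obtain ⟨y, hy, hxy⟩ := mem_iUnion₂.mp (hcov (subset_closure hx))
    have hy' : y ∈ s := by rw [hs, Set.Finite.mem_toFinset]; exact hy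
    refine mem_iUnion.mpr ⟨s.equivFin ⟨y, hy'⟩, ?_⟩
    simpa using hxy
  · intro j x hx y hy
    rw [Metric.mem_ball] at hx hy
    have := dist_triangle_right x y ((s.equivFin.symm j : s) : X)
    linarith

/-- Separated points give a lower bound. -/
lemma card_le_coverNum [ProperSpace X] {ι : Type*} [Fintype ι] {δ : ℝ} (hδ : 0 < δ) {F : Set X}
    (hE : Bornology.IsBounded F) (p : ι → X) (hp : ∀ i, p i ∈ F)
    (hsep : ∀ i j, i ≠ j → δ < dist (p i) (p j)) : Fintype.card ι ≤ coverNum δ F := by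
  classical
  obtain ⟨U, hU1, hU2⟩ := exists_cover (exists_finite_cover hδ hE)
  choose g hg using fun i => mem_iUnion.mp (hU1 (hp i))
  have hinj : Function.Injective g := by
    intro i j hij
    by_contra hne
    have h1 := hsep i j hne
    have h2 := hU2 (g i) _ (hg i) (p j) (by rw [hij]; exact hg j)
    linarith
  have := Fintype.card_le_of_injective g hinj
  simpa using this

end cover

/-! ### Words -/

section words
variable {d m : ℕ} {lam : ℝ}

/-- The translation part of `f_w`, `f_i(x) = λ x + t_i`. -/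
noncomputable def cc (lam : ℝ) (t : Fin m → E d) : List (Fin m) → E d
  | [] => 0
  | i :: w => lam • cc lam t w + t i

lemma cc_append (t : Fin m → E d) (w w' : List (Fin m)) :
    cc lam t (w ++ w') = cc lam t w + lam ^ w.length • cc lam t w' := by
  induction w with
  | nil => simp [cc]
  | cons i w ih =>
    rw [List.cons_append, cc, cc, ih, List.length_cons, pow_succ', smul_add, mul_smul]
    abel

lemma cc_singleton (t : Fin m → E d) (i : Fin m) : cc lam t [i] = t i := by
  simp [cc]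

lemma cc_sub_le (h0 : 0 ≤ lam) (h1 : lam < 1) (t t' : Fin m → E d) (w : List (Fin m)) :
    ‖cc lam t w - cc lam t' w‖ ≤ dist t t' / (1 - lam) := by
  have h2 : 0 < 1 - lam := by linarith
  induction w with
  | nil =>
    simp only [cc, sub_self, norm_zero]
    exact div_nonneg dist_nonneg h2.le
  | cons i w ih =>
    have e : cc lam t (i :: w) - cc lam t' (i :: w) =
        lam • (cc lam t w - cc lam t' w) + (t i - t' i) := by
      rw [cc, cc, smul_sub]
      abel
    rw [e]
    have h3 : ‖t i - t' i‖ ≤ dist t t' := by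
      rw [← dist_eq_norm]
      exact dist_le_pi_dist t t' i
    calc ‖lam • (cc lam t w - cc lam t' w) + (t i - t' i)‖
        ≤ ‖lam • (cc lam t w - cc lam t' w)‖ + ‖t i - t' i‖ := norm_add_le _ _
      _ ≤ lam * (dist t t' / (1 - lam)) + dist t t' := by
          rw [norm_smul, Real.norm_eq_abs, abs_of_nonneg h0]
          gcongr
      _ = dist t t' / (1 - lam) := by
          field_simp
          ring

/-- The maps of the system. -/
noncomputable def Amap (d m : ℕ) (lam : ℝ) : Fin m → E d →L[ℝ] E d :=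
  fun _ => lam • ContinuousLinearMap.id ℝ (E d)

lemma mem_of_word {t : Fin m → E d} {F : Set (E d)} (hF : IsAttractor (Amap d m lam) t F)
    (w : List (Fin m)) {x : E d} (hx : x ∈ F) : lam ^ w.length • x + cc lam t w ∈ F := by
  induction w with
  | nil => simpa [cc] using hx
  | cons i w ih =>
    rw [hF.2.2]
    refine mem_iUnion.mpr ⟨i, _, ih, ?_⟩
    simp only [Amap, _root_.smul_apply, ContinuousLinearMap.id_apply]
    rw [cc, List.length_cons, pow_succ', smul_add, mul_smul]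
    abel

lemma exists_word {t : Fin m → E d} {F : Set (E d)} (hF : IsAttractor (Amap d m lam) t F)
    (n : ℕ) {x : E d} (hx : x ∈ F) :
    ∃ w : List (Fin m), w.length = n ∧ ∃ y ∈ F, x = lam ^ n • y + cc lam t w := by
  induction n generalizing x with
  | zero => exact ⟨[], rfl, x, hx, by simp [cc]⟩
  | succ n ih =>
    have hx' := hx
    rw [hF.2.2] at hx'
    obtain ⟨i, z, hz, hzx⟩ := mem_iUnion.mp hx'
    obtain ⟨w, hw, y, hy, hy2⟩ := ih hz
    refine ⟨i :: w, by simp [hw], y, hy, ?_⟩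
    rw [← hzx, hy2]
    simp only [Amap, _root_.smul_apply, ContinuousLinearMap.id_apply]
    rw [cc, pow_succ', smul_add, mul_smul]
    abel

/-! ### Existence of the attractor -/

lemma exists_attractor (hm : 0 < m) (h0 : 0 < lam) (h1 : lam < 1) (t : Fin m → E d) :
    ∃ F, IsAttractor (Amap d m lam) t F := by
  have : Nonempty (Fin m) := ⟨⟨0, hm⟩⟩
  obtain ⟨B, hB⟩ : ∃ B : ℝ, ∀ i, ‖t i‖ ≤ B := by
    refine ⟨‖t‖, fun i => norm_le_pi_norm t i⟩
  set π : (ℕ → Fin m) → E d := fun u => ∑' k : ℕ, lam ^ k • t (u k) with hπ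
  have hsum : ∀ u : ℕ → Fin m, Summable fun k : ℕ => lam ^ k • t (u k) := by
    intro u
    refine Summable.of_norm_bounded (g := fun k => lam ^ k * B)
      ((summable_geometric_of_lt_one h0.le h1).mul_right B) fun k => ?_
    rw [norm_smul, norm_pow, Real.norm_eq_abs, abs_of_pos h0]
    gcongr
    exact hB _
  have hcont : Continuous π := by
    refine continuous_tsum (u := fun k => lam ^ k * B) (fun k => ?_)
      ((summable_geometric_of_lt_one h0.le h1).mul_right B) fun k u => ?_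
    · have ht : Continuous t := continuous_of_discreteTopology
      have hk : Continuous fun u : ℕ → Fin m => u k := continuous_apply k
      exact (ht.comp hk).const_smul (lam ^ k)
    · rw [norm_smul, norm_pow, Real.norm_eq_abs, abs_of_pos h0]
      gcongr
      exact hB _
  have hcons : ∀ (i : Fin m) (u : ℕ → Fin m),
      π (fun k => Nat.casesOn k i u) = lam • π u + t i := by
    intro i u
    simp only [hπ]
    rw [(hsum _).tsum_eq_zero_add]
    simp only [pow_zero, one_smul]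
    rw [← tsum_const_smul'' lam, add_comm]
    congr 1
    apply tsum_congr
    intro k
    rw [pow_succ', mul_smul]
  refine ⟨range π, range_nonempty π, isCompact_range hcont, ?_⟩
  apply Subset.antisymm
  · rintro _ ⟨u, rfl⟩
    refine mem_iUnion.mpr ⟨u 0, π (fun k => u (k + 1)), ⟨_, rfl⟩, ?_⟩
    simp only [Amap, _root_.smul_apply, ContinuousLinearMap.id_apply]
    rw [← hcons]
    congr 1
    funext k
    cases k <;> rfl
  · intro x hx
    obtain ⟨i, _, ⟨u, rfl⟩, rfl⟩ := mem_iUnion.mp hx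
    refine ⟨fun k => Nat.casesOn k i u, ?_⟩
    rw [hcons]
    simp [Amap]

end words


/-! ### Approximate displacements give maximal Assouad dimension -/

section good
variable {d m : ℕ} {lam : ℝ}

/-- Every small vector is approximated by normalized displacements of pairs of cylinders. -/
def Good (lam : ℝ) (t : Fin m → E d) : Prop :=
  ∃ ρ : ℝ, 0 < ρ ∧ ∀ v : E d, ‖v‖ ≤ ρ → ∀ ε : ℝ, 0 < ε → ∃ a b : List (Fin m),
    a.length = b.length ∧ ‖(lam ^ a.length)⁻¹ • (cc lam t a - cc lam t b) - v‖ ≤ ε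

/-- Finite sets of small vectors are approximated simultaneously. -/
lemma reach (h0 : 0 < lam) (h1 : lam < 1) {t : Fin m → E d} {ρ : ℝ}
    (hG : ∀ v : E d, ‖v‖ ≤ ρ → ∀ ε : ℝ, 0 < ε → ∃ a b : List (Fin m),
      a.length = b.length ∧ ‖(lam ^ a.length)⁻¹ • (cc lam t a - cc lam t b) - v‖ ≤ ε)
    {ε : ℝ} (hε : 0 < ε) (Q : Finset (E d)) (hQ : ∀ v ∈ Q, ‖v‖ ≤ ρ) :
    ∃ (N : ℕ) (W0 : List (Fin m)), W0.length = N ∧ ∀ v ∈ Q, ∃ W : List (Fin m), W.length = N ∧
      ‖(lam ^ N)⁻¹ • (cc lam t W - cc lam t W0) - v‖ ≤ ε := by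
  classical
  induction Q using Finset.induction_on with
  | empty => exact ⟨0, [], rfl, fun v hv => absurd hv (Finset.notMem_empty v)⟩
  | insert v Q hv ih =>
    obtain ⟨N, W0, hW0, hW⟩ := ih fun u hu => hQ u (Finset.mem_insert_of_mem hu)
    have hvρ := hQ v (Finset.mem_insert_self v Q)
    have hlN : 0 < lam ^ N := pow_pos h0 N
    have hlN1 : lam ^ N ≤ 1 := pow_le_one₀ h0.le h1.le
    obtain ⟨a, b, hab, hab2⟩ := hG (lam ^ N • v) (by
      rw [norm_smul, Real.norm_eq_abs, abs_of_pos hlN]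
      calc lam ^ N * ‖v‖ ≤ 1 * ‖v‖ := by gcongr
        _ ≤ ρ := by rw [one_mul]; exact hvρ) (lam ^ N * ε) (by positivity)
    refine ⟨a.length + N, b ++ W0, by rw [List.length_append, hab, hW0], ?_⟩
    intro u hu
    rcases Finset.mem_insert.mp hu with rfl | hu
    · refine ⟨a ++ W0, by rw [List.length_append, hW0], ?_⟩
      have e : (lam ^ (a.length + N))⁻¹ • (cc lam t (a ++ W0) - cc lam t (b ++ W0)) - u =
          (lam ^ N)⁻¹ • ((lam ^ a.length)⁻¹ • (cc lam t a - cc lam t b) - lam ^ N • u) := by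
        rw [cc_append, cc_append, ← hab, add_sub_add_right_eq_sub, smul_sub ((lam ^ N)⁻¹),
          inv_smul_smul₀ hlN.ne', smul_smul, pow_add, mul_inv, mul_comm (lam ^ N)⁻¹]
      rw [e, norm_smul, norm_inv, Real.norm_eq_abs, abs_of_pos hlN, inv_mul_le_iff₀ hlN]
      exact hab2
    · obtain ⟨W, hWl, hW2⟩ := hW u hu
      refine ⟨b ++ W, by rw [List.length_append, hab, hWl], ?_⟩
      have e : (lam ^ (a.length + N))⁻¹ • (cc lam t (b ++ W) - cc lam t (b ++ W0)) =
          (lam ^ N)⁻¹ • (cc lam t W - cc lam t W0) := by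
        have hla : lam ^ a.length ≠ 0 := (pow_pos h0 _).ne'
        rw [cc_append, cc_append, add_sub_add_left_eq_sub, ← smul_sub, ← hab, smul_smul, pow_add,
          mul_inv]
        congr 1
        field_simp
      rw [e]
      exact hW2

/-- A grid of `M^d` vectors of norm at most `ρ`. -/
noncomputable def gridPt (d M : ℕ) (ρ : ℝ) (q : Fin d → Fin M) : E d :=
  WithLp.toLp 2 fun j => ρ / (d * M) * ((q j : ℕ) : ℝ)

lemma abs_coord_sub_le (x y : E d) (i : Fin d) : |x i - y i| ≤ dist x y := by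
  have h := PiLp.norm_apply_le (x - y) i
  rw [dist_eq_norm]
  simpa using h

lemma norm_le_sum (x : E d) : ‖x‖ ≤ ∑ i, |x i| := by
  rw [EuclideanSpace.norm_eq]
  apply Real.sqrt_le_iff.mpr
  constructor
  · exact Finset.sum_nonneg fun i _ => abs_nonneg _
  · have : ∑ i, ‖x i‖ ^ 2 ≤ (∑ i, ‖x i‖) ^ 2 :=
      Finset.sum_sq_le_sq_sum_of_nonneg (fun i _ => norm_nonneg _)
    simpa using this

lemma gridPt_norm {M : ℕ} (hM : 0 < M) {ρ : ℝ} (hρ : 0 ≤ ρ) (q : Fin d → Fin M) :
    ‖gridPt d M ρ q‖ ≤ ρ := by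
  rcases Nat.eq_zero_or_pos d with hd | hd
  · subst hd
    have : gridPt 0 M ρ q = 0 := Subsingleton.elim _ _
    rw [this, norm_zero]
    exact hρ
  have hd0 : (0 : ℝ) < d := by exact_mod_cast hd
  have hM0 : (0 : ℝ) < M := by exact_mod_cast hM
  refine (norm_le_sum _).trans ?_
  calc ∑ i, |gridPt d M ρ q i| ≤ ∑ _i : Fin d, ρ / d := by
        apply Finset.sum_le_sum
        intro i _
        change |ρ / (d * M) * ((q i : ℕ) : ℝ)| ≤ ρ / d
        rw [abs_of_nonneg (by positivity)]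
        have h1 : ((q i : ℕ) : ℝ) ≤ M := by exact_mod_cast (q i).2.le
        calc ρ / (d * M) * ((q i : ℕ) : ℝ) ≤ ρ / (d * M) * M := by gcongr
          _ = ρ / d := by field_simp
    _ = ρ := by
        rw [Finset.sum_const, Finset.card_univ, Fintype.card_fin, nsmul_eq_mul]
        field_simp

lemma gridPt_sep {M : ℕ} {ρ : ℝ} (hρ : 0 ≤ ρ) {q q' : Fin d → Fin M} (h : q ≠ q') :
    ρ / (d * M) ≤ dist (gridPt d M ρ q) (gridPt d M ρ q') := by
  obtain ⟨j, hj⟩ := Function.ne_iff.mp h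
  refine le_trans ?_ (abs_coord_sub_le _ _ j)
  change ρ / (d * M) ≤ |ρ / (d * M) * ((q j : ℕ) : ℝ) - ρ / (d * M) * ((q' j : ℕ) : ℝ)|
  rw [← mul_sub, abs_mul, abs_of_nonneg (by positivity : 0 ≤ ρ / (d * M : ℝ))]
  have h1 : (1 : ℝ) ≤ |((q j : ℕ) : ℝ) - ((q' j : ℕ) : ℝ)| := by
    have h2 : ((q j : ℕ) : ℤ) - ((q' j : ℕ) : ℤ) ≠ 0 := by
      intro h3
      apply hj
      apply Fin.ext
      omega
    have h3 := Int.one_le_abs h2
    exact_mod_cast h3
  calc ρ / (d * M) = ρ / (d * M) * 1 := (mul_one _).symm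
    _ ≤ _ := by gcongr

/-- Good translations give full Assouad dimension. -/
lemma dimA_ge (hd : 0 < d) (h0 : 0 < lam) (h1 : lam < 1) {t : Fin m → E d} (hG : Good lam t)
    {F : Set (E d)} (hF : IsAttractor (Amap d m lam) t F) : (d : ℝ≥0∞) ≤ dimA F := by
  classical
  obtain ⟨ρ, hρ, hG⟩ := hG
  obtain ⟨x0, hx0⟩ := hF.1
  have hd0 : (0 : ℝ) < d := by exact_mod_cast hd
  refine le_iInf₂ fun s hs => ?_
  by_contra hcon
  push Not at hcon
  have hsd : (s : ℝ) < d := by exact_mod_cast hcon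
  obtain ⟨C, hC, hb⟩ := hs
  -- the lower bound for the counting function
  have key : ∀ M : ℕ, 0 < M → (M : ℝ) ^ d ≤ C * (16 * d * M) ^ (s : ℝ) := by
    intro M hM
    have hM0 : (0 : ℝ) < M := by exact_mod_cast hM
    set δ : ℝ := ρ / (d * M) with hδ
    have hδ0 : 0 < δ := by positivity
    have hδρ : δ ≤ ρ := by
      rw [hδ, div_le_iff₀ (by positivity)]
      have hd1 : (1 : ℝ) ≤ d := by exact_mod_cast hd
      have hM1 : (1 : ℝ) ≤ M := by exact_mod_cast hM
      nlinarith [mul_le_mul hd1 hM1 zero_le_one hd0.le]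
    set Q : Finset (E d) := Finset.univ.image (gridPt d M ρ) with hQ
    obtain ⟨N, W0, hW0, hW⟩ := reach h0 h1 hG (ε := δ / 4) (by positivity) Q (by
      intro v hv
      obtain ⟨q, -, rfl⟩ := Finset.mem_image.mp hv
      exact gridPt_norm hM hρ.le q)
    choose W hWl hWd using fun q : Fin d → Fin M =>
      hW (gridPt d M ρ q) (Finset.mem_image_of_mem _ (Finset.mem_univ q))
    have hlN : 0 < lam ^ N := pow_pos h0 N
    set y0 : E d := lam ^ N • x0 + cc lam t W0 with hy0
    have hy0F : y0 ∈ F := by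
      have := mem_of_word hF W0 hx0
      rwa [hW0] at this
    set y : (Fin d → Fin M) → E d := fun q => lam ^ N • x0 + cc lam t (W q) with hy
    have hyF : ∀ q, y q ∈ F := by
      intro q
      have := mem_of_word hF (W q) hx0
      rwa [hWl q] at this
    have hyd : ∀ q, ‖(y q - y0) - lam ^ N • gridPt d M ρ q‖ ≤ lam ^ N * (δ / 4) := by
      intro q
      have e : (y q - y0) - lam ^ N • gridPt d M ρ q =
          lam ^ N • ((lam ^ N)⁻¹ • (cc lam t (W q) - cc lam t W0) - gridPt d M ρ q) := by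
        rw [smul_sub, smul_inv_smul₀ hlN.ne', hy, hy0]
        simp only
        abel
      rw [e, norm_smul, Real.norm_eq_abs, abs_of_pos hlN]
      exact mul_le_mul_of_nonneg_left (hWd q) hlN.le
    -- distances
    have hball : ∀ q, y q ∈ Metric.closedBall y0 (lam ^ N * (2 * ρ)) := by
      intro q
      rw [Metric.mem_closedBall, dist_eq_norm]
      have e : y q - y0 = ((y q - y0) - lam ^ N • gridPt d M ρ q) + lam ^ N • gridPt d M ρ q := by
        abel
      rw [e]
      calc _ ≤ ‖(y q - y0) - lam ^ N • gridPt d M ρ q‖ + ‖lam ^ N • gridPt d M ρ q‖ :=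
            norm_add_le _ _
        _ ≤ lam ^ N * (δ / 4) + lam ^ N * ρ := by
            rw [norm_smul, Real.norm_eq_abs, abs_of_pos hlN]
            have := gridPt_norm hM hρ.le q
            have := hyd q
            gcongr
        _ ≤ lam ^ N * (2 * ρ) := by
            rw [← mul_add]
            gcongr
            linarith
    have hsep : ∀ q q', q ≠ q' → lam ^ N * (δ / 4) < dist (y q) (y q') := by
      intro q q' hne
      have h2 := gridPt_sep (d := d) (M := M) hρ.le hne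
      rw [← hδ] at h2
      have e : lam ^ N • gridPt d M ρ q - lam ^ N • gridPt d M ρ q' =
          (y q - y q') - (((y q - y0) - lam ^ N • gridPt d M ρ q) -
            ((y q' - y0) - lam ^ N • gridPt d M ρ q')) := by abel
      have h3 : lam ^ N * δ ≤ ‖lam ^ N • gridPt d M ρ q - lam ^ N • gridPt d M ρ q'‖ := by
        rw [← smul_sub, norm_smul, Real.norm_eq_abs, abs_of_pos hlN, ← dist_eq_norm]
        gcongr
      rw [e] at h3
      have h4 := norm_sub_le (y q - y q') (((y q - y0) - lam ^ N • gridPt d M ρ q) -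
            ((y q' - y0) - lam ^ N • gridPt d M ρ q'))
      have h5 := norm_sub_le ((y q - y0) - lam ^ N • gridPt d M ρ q)
            ((y q' - y0) - lam ^ N • gridPt d M ρ q')
      have h6 := hyd q
      have h7 := hyd q'
      rw [dist_eq_norm]
      have h8 : 0 < lam ^ N * δ := by positivity
      linarith
    -- counting
    have hbdd : Bornology.IsBounded (Metric.closedBall y0 (lam ^ N * (2 * ρ)) ∩ F) :=
      Metric.isBounded_closedBall.subset inter_subset_left
    have hcount := card_le_coverNum (δ := lam ^ N * (δ / 4)) (by positivity) hbdd y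
      (fun q => ⟨hball q, hyF q⟩) hsep
    rw [Fintype.card_fun, Fintype.card_fin, Fintype.card_fin] at hcount
    have hcount' : (M : ℝ) ^ d ≤
        (coverNum (lam ^ N * (δ / 4)) (Metric.closedBall y0 (lam ^ N * (2 * ρ)) ∩ F) : ℝ) := by
      exact_mod_cast hcount
    have h9 := hb y0 hy0F (lam ^ N * (δ / 4)) (lam ^ N * (2 * ρ)) (by positivity) (by
      apply mul_lt_mul_of_pos_left _ hlN
      linarith)
    have e2 : lam ^ N * (2 * ρ) / (lam ^ N * (δ / 4)) = 8 * d * M := by
      rw [hδ]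
      field_simp
      norm_num
    rw [e2] at h9
    calc (M : ℝ) ^ d ≤ _ := hcount'
      _ ≤ C * (8 * d * M) ^ (s : ℝ) := h9
      _ ≤ C * (16 * d * M) ^ (s : ℝ) := by
          gcongr
          norm_num
  -- contradiction for large `M`
  have htend : Tendsto (fun M : ℕ => (M : ℝ) ^ ((d : ℝ) - s)) atTop atTop :=
    (tendsto_rpow_atTop (by linarith)).comp tendsto_natCast_atTop_atTop
  obtain ⟨M, hM, hM1⟩ := ((htend.eventually_gt_atTop (C * (16 * d) ^ (s : ℝ))).and
    (eventually_gt_atTop 0)).exists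
  have h2 := key M hM1
  have hM0 : (0 : ℝ) < M := by exact_mod_cast hM1
  rw [Real.rpow_sub hM0, Real.rpow_natCast, lt_div_iff₀ (Real.rpow_pos_of_pos hM0 _)] at hM
  rw [Real.mul_rpow (by positivity) hM0.le, ← mul_assoc] at h2
  linarith

end good


/-! ### Almost every translation vector in a suitable open set is good -/

section porosity
variable {d m : ℕ} {lam : ℝ}

/-- The control hypotheses on the translations (`st` is a distinguished index). -/
structure Control (lam : ℝ) (t : Fin m → E d) (st : Fin m) : Prop where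
  step : ∀ x : E d, (∀ l, |x l| ≤ 1) → ∃ i j, i ≠ st ∧ j ≠ st ∧
    ∀ l, |(lam⁻¹ • (x + (t i - t j))) l| ≤ 1
  start : ∃ j, j ≠ st ∧ ∀ l, |(lam⁻¹ • (t st - t j)) l| ≤ 1

lemma control_pairs (h0 : 0 < lam) {t : Fin m → E d} {st : Fin m} (hC : Control lam t st)
    (n : ℕ) : ∃ a b : List (Fin m), a.length = n + 1 ∧ b.length = n + 1 ∧
      (∀ l, |((lam ^ (n + 1))⁻¹ • (cc lam t a - cc lam t b)) l| ≤ 1) ∧
      ∀ Δ : E d, cc lam (t + Pi.single st Δ) a - cc lam (t + Pi.single st Δ) b =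
        cc lam t a - cc lam t b + Δ := by
  induction n with
  | zero =>
    obtain ⟨j, hj, hl⟩ := hC.start
    refine ⟨[st], [j], rfl, rfl, ?_, ?_⟩
    · intro l
      rw [cc_singleton, cc_singleton, zero_add, pow_one]
      exact hl l
    · intro Δ
      rw [cc_singleton, cc_singleton, cc_singleton, cc_singleton, Pi.add_apply, Pi.add_apply,
        Pi.single_eq_same, Pi.single_eq_of_ne hj]
      abel
  | succ n ih =>
    obtain ⟨a, b, ha, hb, hx, hΔ⟩ := ih
    obtain ⟨i, j, hi, hj, hl⟩ := hC.step _ hx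
    refine ⟨a ++ [i], b ++ [j], by simp [ha], by simp [hb], ?_, ?_⟩
    · intro l
      have e : (lam ^ (n + 1 + 1))⁻¹ • (cc lam t (a ++ [i]) - cc lam t (b ++ [j])) =
          lam⁻¹ • ((lam ^ (n + 1))⁻¹ • (cc lam t a - cc lam t b) + (t i - t j)) := by
        have hne : lam ^ (n + 1) ≠ 0 := (pow_pos h0 _).ne'
        have hA : cc lam t (a ++ [i]) = cc lam t a + lam ^ (n + 1) • t i := by
          rw [cc_append, cc_singleton, ha]
        have hB : cc lam t (b ++ [j]) = cc lam t b + lam ^ (n + 1) • t j := by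
          rw [cc_append, cc_singleton, hb]
        have hinv : (lam ^ (n + 1 + 1))⁻¹ = lam⁻¹ * (lam ^ (n + 1))⁻¹ := by
          rw [pow_succ lam (n + 1), mul_inv, mul_comm]
        rw [hA, hB, add_sub_add_comm, ← smul_sub, hinv, mul_smul, smul_add,
          inv_smul_smul₀ hne]
      rw [e]
      exact hl l
    · intro Δ
      have hA : cc lam (t + Pi.single st Δ) (a ++ [i]) =
          cc lam (t + Pi.single st Δ) a + lam ^ (n + 1) • t i := by
        rw [cc_append, cc_singleton, ha, Pi.add_apply, Pi.single_eq_of_ne hi, add_zero]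
      have hB : cc lam (t + Pi.single st Δ) (b ++ [j]) =
          cc lam (t + Pi.single st Δ) b + lam ^ (n + 1) • t j := by
        rw [cc_append, cc_singleton, hb, Pi.add_apply, Pi.single_eq_of_ne hj, add_zero]
      have hA0 : cc lam t (a ++ [i]) = cc lam t a + lam ^ (n + 1) • t i := by
        rw [cc_append, cc_singleton, ha]
      have hB0 : cc lam t (b ++ [j]) = cc lam t b + lam ^ (n + 1) • t j := by
        rw [cc_append, cc_singleton, hb]
      rw [hA, hB, hA0, hB0, add_sub_add_comm, hΔ Δ, add_sub_add_comm, add_right_comm]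

/-- The translations for which a displacement is never approximated. -/
def Bad (lam : ℝ) (U : Set (Fin m → E d)) (v : E d) (ε : ℝ) : Set (Fin m → E d) :=
  {t | t ∈ U ∧ ∀ a b : List (Fin m), a.length = b.length →
    ε ≤ ‖(lam ^ a.length)⁻¹ • (cc lam t a - cc lam t b) - v‖}

lemma continuous_cc (w : List (Fin m)) : Continuous fun t : Fin m → E d => cc lam t w := by
  induction w with
  | nil => exact continuous_const
  | cons i w ih => exact (ih.const_smul lam).add (continuous_apply i)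

lemma measurableSet_Bad {U : Set (Fin m → E d)} (hU : IsOpen U) (v : E d) (ε : ℝ) :
    MeasurableSet (Bad lam U v ε) := by
  have e : Bad lam U v ε = U ∩ ⋂ (a : List (Fin m)) (b : List (Fin m)) (_ : a.length = b.length),
      {t | ε ≤ ‖(lam ^ a.length)⁻¹ • (cc lam t a - cc lam t b) - v‖} := by
    ext t
    simp [Bad]
  rw [e]
  apply hU.measurableSet.inter
  apply IsClosed.measurableSet
  apply isClosed_iInter
  intro a
  apply isClosed_iInter
  intro b
  apply isClosed_iInter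
  intro _
  have h1 : Continuous fun t : Fin m → E d => cc lam t a - cc lam t b :=
    (continuous_cc a).sub (continuous_cc b)
  have h2 : Continuous fun t : Fin m → E d => (lam ^ a.length)⁻¹ • (cc lam t a - cc lam t b) :=
    h1.const_smul ((lam ^ a.length)⁻¹)
  have h3 : Continuous fun t : Fin m → E d =>
      (lam ^ a.length)⁻¹ • (cc lam t a - cc lam t b) - v := h2.sub continuous_const
  exact isClosed_le continuous_const h3.norm

lemma volume_Bad (h0 : 0 < lam) (h1 : lam < 1) {U : Set (Fin m → E d)} (hU : IsOpen U)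
    {st : Fin m} (hC : ∀ t ∈ U, Control lam t st) {v : E d} (hv : ‖v‖ ≤ 1) {ε : ℝ} (hε : 0 < ε) :
    volume (Bad lam U v ε) = 0 := by
  set c : ℝ := ε * (1 - lam) / 4 with hc
  have h1' : 0 < 1 - lam := by linarith
  have hc0 : 0 < c := by positivity
  set C : ℝ := 1 + d + c with hCdef
  have hC0 : 0 < C := by positivity
  -- holes
  have hhole : ∀ t ∈ Bad lam U v ε, ∀ n : ℕ, ∃ t' : Fin m → E d,
      Metric.closedBall t' (c * lam ^ (n + 1)) ⊆ Metric.closedBall t (C * lam ^ (n + 1)) ∧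
      Disjoint (Bad lam U v ε) (Metric.closedBall t' (c * lam ^ (n + 1))) := by
    intro t ht n
    obtain ⟨a, b, ha, hb, hx, hΔ⟩ := control_pairs h0 (hC t ht.1) n
    have hl : 0 < lam ^ (n + 1) := pow_pos h0 _
    set x : E d := (lam ^ (n + 1))⁻¹ • (cc lam t a - cc lam t b) with hxdef
    have hxn : ‖x‖ ≤ d := by
      refine (norm_le_sum x).trans ?_
      calc ∑ l, |x l| ≤ ∑ _l : Fin d, (1 : ℝ) := Finset.sum_le_sum fun l _ => hx l
        _ = d := by simp
    set Δ : E d := lam ^ (n + 1) • (v - x) with hΔdef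
    have hΔn : ‖Δ‖ ≤ lam ^ (n + 1) * (1 + d) := by
      rw [hΔdef, norm_smul, Real.norm_eq_abs, abs_of_pos hl]
      apply mul_le_mul_of_nonneg_left _ hl.le
      calc ‖v - x‖ ≤ ‖v‖ + ‖x‖ := norm_sub_le _ _
        _ ≤ 1 + d := add_le_add hv hxn
    set t' : Fin m → E d := t + Pi.single st Δ with ht'
    have hdist : dist t' t ≤ lam ^ (n + 1) * (1 + d) := by
      rw [dist_eq_norm, ht', add_sub_cancel_left]
      refine le_trans ?_ hΔn
      rw [pi_norm_le_iff_of_nonneg (norm_nonneg _)]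
      intro i
      rcases eq_or_ne i st with rfl | hi
      · rw [Pi.single_eq_same]
      · rw [Pi.single_eq_of_ne hi, norm_zero]
        exact norm_nonneg _
    refine ⟨t', ?_, ?_⟩
    · apply Metric.closedBall_subset_closedBall'
      rw [hCdef]
      nlinarith
    · rw [Set.disjoint_left]
      intro t'' hBad ht''
      have h2 := hBad.2 a b (by rw [ha, hb])
      rw [ha] at h2
      rw [Metric.mem_closedBall] at ht''
      have h3 := cc_sub_le h0.le h1 t'' t' a
      have h4 := cc_sub_le h0.le h1 t'' t' b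
      have e : (lam ^ (n + 1))⁻¹ • (cc lam t'' a - cc lam t'' b) - v =
          (lam ^ (n + 1))⁻¹ • ((cc lam t'' a - cc lam t' a) - (cc lam t'' b - cc lam t' b)) := by
        have h5 := hΔ Δ
        rw [← ht'] at h5
        have h6 : (lam ^ (n + 1))⁻¹ • (cc lam t' a - cc lam t' b) = v := by
          rw [h5, smul_add, ← hxdef, hΔdef, inv_smul_smul₀ hl.ne']
          abel
        have h7 : (cc lam t'' a - cc lam t' a) - (cc lam t'' b - cc lam t' b) =
            (cc lam t'' a - cc lam t'' b) - (cc lam t' a - cc lam t' b) := by abel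
        have h8 := smul_sub (lam ^ (n + 1))⁻¹ (cc lam t'' a - cc lam t'' b)
          (cc lam t' a - cc lam t' b)
        rw [h7, h8, h6]
      rw [e, norm_smul, norm_inv, Real.norm_eq_abs, abs_of_pos hl] at h2
      have h8 : ‖(cc lam t'' a - cc lam t' a) - (cc lam t'' b - cc lam t' b)‖ ≤
          2 * (c * lam ^ (n + 1) / (1 - lam)) := by
        have h9 : dist t'' t' / (1 - lam) ≤ c * lam ^ (n + 1) / (1 - lam) := by gcongr
        calc _ ≤ ‖cc lam t'' a - cc lam t' a‖ + ‖cc lam t'' b - cc lam t' b‖ := norm_sub_le _ _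
          _ ≤ _ := by linarith
      have h10 : (lam ^ (n + 1))⁻¹ * ‖(cc lam t'' a - cc lam t' a) - (cc lam t'' b - cc lam t' b)‖ ≤
          ε / 2 := by
        calc _ ≤ (lam ^ (n + 1))⁻¹ * (2 * (c * lam ^ (n + 1) / (1 - lam))) := by gcongr
          _ = ε / 2 := by
              rw [hc]
              field_simp
              norm_num
      linarith
  -- densities
  have hdens := Besicovitch.ae_tendsto_measure_inter_div (volume : Measure (Fin m → E d))
    (Bad lam U v ε)
  rw [ae_restrict_iff' (measurableSet_Bad hU v ε)] at hdens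
  rw [measure_eq_zero_iff_ae_notMem]
  filter_upwards [hdens] with t ht htB
  have hlim := ht htB
  have hseq : Tendsto (fun n : ℕ => C * lam ^ (n + 1)) atTop (𝓝[>] 0) := by
    refine tendsto_nhdsWithin_iff.mpr ⟨?_, Eventually.of_forall fun n => ?_⟩
    · have h2 := (tendsto_pow_atTop_nhds_zero_of_lt_one h0.le h1).comp (tendsto_add_atTop_nat 1)
      have h3 := h2.const_mul C
      simpa using h3
    · exact mem_Ioi.mpr (by positivity)
  have hlim2 := hlim.comp hseq
  set D : ℕ := Module.finrank ℝ (Fin m → E d) with hD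
  set κ : ℝ≥0∞ := ENNReal.ofReal ((c / C) ^ D) with hκ
  have hκ0 : 0 < κ := ENNReal.ofReal_pos.mpr (by positivity)
  have hle : ∀ n : ℕ, volume (Bad lam U v ε ∩ Metric.closedBall t (C * lam ^ (n + 1))) /
      volume (Metric.closedBall t (C * lam ^ (n + 1))) + κ ≤ 1 := by
    intro n
    have hl : 0 < lam ^ (n + 1) := pow_pos h0 _
    obtain ⟨t', hsub, hdisj⟩ := hhole t htB n
    set V := volume (Metric.closedBall t (C * lam ^ (n + 1))) with hV
    have hV0 : V ≠ 0 := (Metric.measure_closedBall_pos volume t (by positivity)).ne'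
    have hVt : V ≠ ∞ := measure_closedBall_lt_top.ne
    have hV' : volume (Metric.closedBall t' (c * lam ^ (n + 1))) = κ * V := by
      rw [hV, Measure.addHaar_closedBall volume t' (by positivity),
        Measure.addHaar_closedBall volume t (by positivity), ← mul_assoc, hκ,
        ← ENNReal.ofReal_mul (by positivity)]
      congr 2
      rw [← mul_pow]
      congr 1
      field_simp
    have h2 : volume (Bad lam U v ε ∩ Metric.closedBall t (C * lam ^ (n + 1))) + κ * V ≤ V := by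
      rw [← hV', ← measure_union _ Metric.isClosed_closedBall.measurableSet]
      · apply measure_mono
        exact union_subset inter_subset_right hsub
      · exact hdisj.mono_left inter_subset_left
    calc _ = (volume (Bad lam U v ε ∩ Metric.closedBall t (C * lam ^ (n + 1))) + κ * V) / V := by
          rw [ENNReal.add_div, mul_div_assoc, ENNReal.div_self hV0 hVt, mul_one]
      _ ≤ V / V := ENNReal.div_le_div_right h2 V
      _ = 1 := ENNReal.div_self hV0 hVt
  have h3 : Tendsto (fun n : ℕ => volume (Bad lam U v ε ∩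
      Metric.closedBall t (C * lam ^ (n + 1))) /
      volume (Metric.closedBall t (C * lam ^ (n + 1))) + κ) atTop (𝓝 (1 + κ)) :=
    hlim2.add tendsto_const_nhds
  have h4 : (1 : ℝ≥0∞) + κ ≤ 1 := le_of_tendsto' h3 hle
  have h5 : (1 : ℝ≥0∞) < 1 + κ := ENNReal.lt_add_right (by simp) hκ0.ne'
  exact absurd h4 (not_le.mpr h5)

lemma ae_good (h0 : 0 < lam) (h1 : lam < 1) {U : Set (Fin m → E d)} (hU : IsOpen U)
    {st : Fin m} (hC : ∀ t ∈ U, Control lam t st) :
    ∀ᵐ t : Fin m → E d, t ∈ U → Good lam t := by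
  have h2 : ∀ᵐ t : Fin m → E d, ∀ i k : ℕ, ‖TopologicalSpace.denseSeq (E d) i‖ ≤ 1 →
      t ∉ Bad lam U (TopologicalSpace.denseSeq (E d) i) (1 / ((k : ℝ) + 1)) := by
    rw [ae_all_iff]
    intro i
    rw [ae_all_iff]
    intro k
    by_cases hi : ‖TopologicalSpace.denseSeq (E d) i‖ ≤ 1
    · have h3 := volume_Bad h0 h1 hU hC hi (ε := 1 / ((k : ℝ) + 1)) (by positivity)
      rw [measure_eq_zero_iff_ae_notMem] at h3
      filter_upwards [h3] with t ht _
      exact ht
    · exact Eventually.of_forall fun t h => absurd h hi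
  filter_upwards [h2] with t ht htU
  refine ⟨1 / 2, by norm_num, fun v hv ε hε => ?_⟩
  obtain ⟨k, hk⟩ := exists_nat_one_div_lt (show 0 < ε / 2 by linarith)
  obtain ⟨i, hi⟩ := (TopologicalSpace.denseRange_denseSeq (E d)).exists_dist_lt v
    (show 0 < min (ε / 2) (1 / 2) by positivity)
  have hi1 : ‖TopologicalSpace.denseSeq (E d) i‖ ≤ 1 := by
    have h3 : dist v (TopologicalSpace.denseSeq (E d) i) < 1 / 2 := hi.trans_le (min_le_right _ _)
    have h4 : ‖TopologicalSpace.denseSeq (E d) i‖ ≤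
        ‖v‖ + dist v (TopologicalSpace.denseSeq (E d) i) := by
      rw [dist_eq_norm]
      calc ‖TopologicalSpace.denseSeq (E d) i‖
          = ‖v - (v - TopologicalSpace.denseSeq (E d) i)‖ := by congr 1; abel
        _ ≤ _ := norm_sub_le _ _
    linarith
  have h5 := ht i k hi1
  unfold Bad at h5
  simp only [mem_ofPred_eq, not_and, not_forall] at h5
  obtain ⟨a, b, hab, hlt⟩ := h5 htU
  push Not at hlt
  refine ⟨a, b, hab, ?_⟩
  have h6 : dist v (TopologicalSpace.denseSeq (E d) i) < ε / 2 := hi.trans_le (min_le_left _ _)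
  rw [dist_comm, dist_eq_norm] at h6
  calc ‖(lam ^ a.length)⁻¹ • (cc lam t a - cc lam t b) - v‖
      = ‖((lam ^ a.length)⁻¹ • (cc lam t a - cc lam t b) - TopologicalSpace.denseSeq (E d) i) +
          (TopologicalSpace.denseSeq (E d) i - v)‖ := by
        congr 1
        abel
    _ ≤ _ := norm_add_le _ _
    _ ≤ ε := by linarith

end porosity

/-! ### Upper bounds -/

section upper
variable {d m : ℕ} {lam : ℝ}

/-- Cylinders of length `n` inside a cylinder. -/
lemma cover_cylinder (h0 : 0 < lam) {t : Fin m → E d} {F : Set (E d)}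
    (hF : IsAttractor (Amap d m lam) t F) (u : E d) (k n : ℕ) {G : Set (E d)}
    (hG : ∀ z ∈ G, ∃ y ∈ F, z = lam ^ k • y + u) {r : ℝ}
    (hr : lam ^ (k + n) * Metric.diam F ≤ r) : coverNum r G ≤ m ^ n := by
  have h2 := coverNum_le_of_finset (δ := r) (F := G) (Finset.univ : Finset (Fin n → Fin m))
    (fun f => (fun y => lam ^ k • (lam ^ n • y + cc lam t (List.ofFn f)) + u) '' F) ?_ ?_
  · simpa using h2
  · intro z hz
    obtain ⟨y, hy, hzy⟩ := hG z hz
    obtain ⟨w, hw, y', hy', hyy'⟩ := exists_word hF n hy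
    refine mem_iUnion₂.mpr ⟨fun i => w.get (i.cast hw.symm), Finset.mem_univ _, y', hy', ?_⟩
    have e : List.ofFn (fun i : Fin n => w.get (i.cast hw.symm)) = w := by
      subst hw
      exact List.ofFn_get w
    simp only [e]
    rw [hzy, hyy']
  · rintro f - _ ⟨x, hx, rfl⟩ _ ⟨y, hy, rfl⟩
    simp only
    rw [dist_add_right, dist_smul₀, dist_add_right, dist_smul₀, norm_pow, norm_pow,
      Real.norm_eq_abs, abs_of_pos h0, ← mul_assoc, ← pow_add]
    refine le_trans ?_ hr
    exact mul_le_mul_of_nonneg_left (Metric.dist_le_diam_of_mem hF.2.1.isBounded hx hy)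
      (pow_nonneg h0.le _)

lemma dimL_le (h0 : 0 < lam) (h1 : lam < 1) (hm : 0 < m) {t : Fin m → E d} {F : Set (E d)}
    (hF : IsAttractor (Amap d m lam) t F) (hdiam : 0 < Metric.diam F) {s : ℝ}
    (hs : (m : ℝ) * lam ^ s = 1) : dimL F ≤ ENNReal.ofReal s := by
  refine iSup₂_le fun s' hb => ?_
  by_contra hlt
  push Not at hlt
  have hss : s < s' := by
    rw [← ENNReal.ofReal_coe_nnreal, ENNReal.ofReal_lt_ofReal_iff'] at hlt
    exact hlt.1
  have hm0 : (0 : ℝ) < m := by exact_mod_cast hm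
  set q : ℝ := (m : ℝ) * lam ^ (s' : ℝ) with hq
  have hq0 : 0 < q := by positivity
  have hq1 : q < 1 := by
    rw [← hs, hq]
    apply mul_lt_mul_of_pos_left _ hm0
    exact Real.rpow_lt_rpow_of_exponent_gt h0 h1 hss
  obtain ⟨C, hC, hb⟩ := hb
  obtain ⟨x0, hx0⟩ := hF.1
  have key : ∀ n : ℕ, C ≤ q ^ (n + 1) := by
    intro n
    have hln : 0 < lam ^ (n + 1) := pow_pos h0 _
    have hln1 : lam ^ (n + 1) < 1 := pow_lt_one₀ h0.le h1 (by omega)
    have h2 := hb x0 hx0 (lam ^ (n + 1) * Metric.diam F) (Metric.diam F) (by positivity)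
      (by nlinarith) le_rfl
    have h3 : coverNum (lam ^ (n + 1) * Metric.diam F)
        (Metric.closedBall x0 (Metric.diam F) ∩ F) ≤ m ^ (n + 1) := by
      apply cover_cylinder h0 hF 0 0 (n + 1)
      · intro z hz
        exact ⟨z, hz.2, by simp⟩
      · rw [zero_add]
    have h4 : (coverNum (lam ^ (n + 1) * Metric.diam F)
        (Metric.closedBall x0 (Metric.diam F) ∩ F) : ℝ) ≤ (m : ℝ) ^ (n + 1) := by
      exact_mod_cast h3
    have e : Metric.diam F / (lam ^ (n + 1) * Metric.diam F) = (lam ^ (n + 1))⁻¹ := by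
      field_simp
    rw [e, Real.inv_rpow hln.le] at h2
    have h5 : C * ((lam ^ (n + 1)) ^ (s' : ℝ))⁻¹ ≤ (m : ℝ) ^ (n + 1) := h2.trans h4
    have h6 : 0 < (lam ^ (n + 1)) ^ (s' : ℝ) := Real.rpow_pos_of_pos hln _
    rw [← div_eq_mul_inv, div_le_iff₀ h6] at h5
    calc C ≤ _ := h5
      _ = q ^ (n + 1) := by
          rw [hq, mul_pow, ← Real.rpow_natCast (lam ^ (s' : ℝ)), ← Real.rpow_mul h0.le,
            mul_comm (s' : ℝ), Real.rpow_mul h0.le, Real.rpow_natCast]
  have h2 := (tendsto_pow_atTop_nhds_zero_of_lt_one hq0.le hq1).comp (tendsto_add_atTop_nat 1)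
  have h3 : C ≤ 0 := ge_of_tendsto' h2 key
  linarith

/-- Strong separation: nearby points lie in the same cylinder. -/
lemma same_word (h0 : 0 < lam) (h1 : lam < 1) {t : Fin m → E d} {F : Set (E d)}
    (hF : IsAttractor (Amap d m lam) t F) {κ : ℝ} (hκ : 0 < κ)
    (hsep : ∀ i j, i ≠ j → ∀ x ∈ F, ∀ y ∈ F, κ ≤ dist (lam • x + t i) (lam • y + t j))
    (n : ℕ) : ∀ x ∈ F, ∃ w : List (Fin m), ∀ z ∈ F, lam * dist x z < lam ^ n * κ →
      ∃ y ∈ F, z = lam ^ n • y + cc lam t w := by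
  have hatt : ∀ x ∈ F, ∃ i, ∃ y ∈ F, x = lam • y + t i := by
    intro x hx
    have hx' := hx
    rw [hF.2.2] at hx'
    obtain ⟨i, z, hz, hzx⟩ := mem_iUnion.mp hx'
    exact ⟨i, z, hz, by rw [← hzx]; simp [Amap]⟩
  induction n with
  | zero =>
    intro x hx
    exact ⟨[], fun z hz _ => ⟨z, hz, by simp [cc]⟩⟩
  | succ n ih =>
    intro x hx
    obtain ⟨i, x1, hx1, hxe⟩ := hatt x hx
    obtain ⟨w, hw⟩ := ih x1 hx1
    refine ⟨i :: w, fun z hz hd => ?_⟩
    obtain ⟨j, z1, hz1, hze⟩ := hatt z hz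
    have h2 : dist x z < lam ^ n * κ := by
      rw [pow_succ', mul_assoc] at hd
      exact lt_of_mul_lt_mul_left hd h0.le
    have hij : i = j := by
      by_contra hne
      have h3 := hsep i j hne x1 hx1 z1 hz1
      rw [← hxe, ← hze] at h3
      have h4 : lam ^ n * κ ≤ 1 * κ := by
        gcongr
        exact pow_le_one₀ h0.le h1.le
      linarith
    subst hij
    have h5 : lam * dist x1 z1 < lam ^ n * κ := by
      rw [hxe, hze, dist_add_right, dist_smul₀, Real.norm_eq_abs, abs_of_pos h0] at h2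
      exact h2
    obtain ⟨y, hy, hye⟩ := hw z1 hz1 h5
    refine ⟨y, hy, ?_⟩
    rw [hze, hye, cc, pow_succ', smul_add, mul_smul]
    abel

lemma assouadBound_of_sep (h0 : 0 < lam) (h1 : lam < 1) (hm : 0 < m) {t : Fin m → E d}
    {F : Set (E d)} (hF : IsAttractor (Amap d m lam) t F) {κ : ℝ} (hκ : 0 < κ)
    (hsep : ∀ i j, i ≠ j → ∀ x ∈ F, ∀ y ∈ F, κ ≤ dist (lam • x + t i) (lam • y + t j))
    {s : ℝ} (hs0 : 0 ≤ s) (hs : (m : ℝ) * lam ^ s = 1) : AssouadBound F s := by
  have hm0 : (0 : ℝ) < m := by exact_mod_cast hm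
  set D : ℝ := Metric.diam F + 1 with hD
  have hD0 : 0 < D := by have := Metric.diam_nonneg (s := F); positivity
  refine ⟨1 + (D / (κ * lam)) ^ s, by positivity, ?_⟩
  intro x hx r R hr hrR
  have hR : 0 < R := hr.trans hrR
  have hRr : 1 ≤ R / r := by rw [le_div_iff₀ hr]; linarith
  have hRrs : 1 ≤ (R / r) ^ s := Real.one_le_rpow hRr hs0
  -- the scale of the ball
  obtain ⟨n, hn1, hn2⟩ : ∃ n : ℕ, (n = 0 ∨ lam * R < lam ^ n * κ) ∧ lam ^ n * κ ≤ R := by
    have hex : ∃ n : ℕ, lam ^ n * κ ≤ R := by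
      obtain ⟨n, hn⟩ := exists_pow_lt_of_lt_one (show 0 < R / κ by positivity) h1
      refine ⟨n, ?_⟩
      rw [lt_div_iff₀ hκ] at hn
      exact hn.le
    classical
    refine ⟨Nat.find hex, ?_, Nat.find_spec hex⟩
    rcases Nat.eq_zero_or_pos (Nat.find hex) with h | h
    · exact Or.inl h
    · right
      have h2 := Nat.find_min hex (m := Nat.find hex - 1) (by omega)
      push Not at h2
      have h3 : Nat.find hex = (Nat.find hex - 1) + 1 := by omega
      rw [h3, pow_succ', mul_assoc]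
      exact mul_lt_mul_of_pos_left h2 h0
  obtain ⟨w, hw⟩ : ∃ w : List (Fin m), ∀ z ∈ Metric.closedBall x R ∩ F,
      ∃ y ∈ F, z = lam ^ n • y + cc lam t w := by
    rcases hn1 with rfl | hn1
    · exact ⟨[], fun z hz => ⟨z, hz.2, by simp [cc]⟩⟩
    · obtain ⟨w, hw⟩ := same_word h0 h1 hF hκ hsep n x hx
      refine ⟨w, fun z hz => hw z hz.2 ?_⟩
      refine lt_of_le_of_lt ?_ hn1
      have h2 := hz.1
      rw [Metric.mem_closedBall, dist_comm] at h2
      gcongr
  -- the scale of the pieces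
  obtain ⟨k, hk1, hk2⟩ : ∃ k : ℕ, (k = 0 ∨ lam * r < lam ^ (n + k) * D) ∧
      lam ^ (n + k) * D ≤ r := by
    have hex : ∃ k : ℕ, lam ^ (n + k) * D ≤ r := by
      obtain ⟨k, hk⟩ := exists_pow_lt_of_lt_one (show 0 < r / D by positivity) h1
      refine ⟨k, ?_⟩
      rw [lt_div_iff₀ hD0] at hk
      refine le_trans ?_ hk.le
      gcongr ?_ * _
      exact pow_le_pow_of_le_one h0.le h1.le (by omega)
    classical
    refine ⟨Nat.find hex, ?_, Nat.find_spec hex⟩
    rcases Nat.eq_zero_or_pos (Nat.find hex) with h | h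
    · exact Or.inl h
    · right
      have h2 := Nat.find_min hex (m := Nat.find hex - 1) (by omega)
      push Not at h2
      have h3 : n + Nat.find hex = (n + (Nat.find hex - 1)) + 1 := by omega
      rw [h3, pow_succ', mul_assoc]
      exact mul_lt_mul_of_pos_left h2 h0
  have hcount : coverNum r (Metric.closedBall x R ∩ F) ≤ m ^ k := by
    apply cover_cylinder h0 hF (cc lam t w) n k hw
    refine le_trans ?_ hk2
    gcongr
    linarith
  have hcount' : (coverNum r (Metric.closedBall x R ∩ F) : ℝ) ≤ (m : ℝ) ^ k := by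
    exact_mod_cast hcount
  refine hcount'.trans ?_
  rcases hk1 with rfl | hk1
  · rw [pow_zero]
    have h2 : 0 ≤ (D / (κ * lam)) ^ s := by positivity
    nlinarith
  · have hlk : 0 < lam ^ k := pow_pos h0 k
    have hln : 0 < lam ^ n := pow_pos h0 n
    have h2 : (lam ^ k)⁻¹ ≤ D / (κ * lam) * (R / r) := by
      rw [inv_le_iff_one_le_mul₀ hlk]
      have e : D / (κ * lam) * (R / r) * lam ^ k = (D * R * lam ^ k) / (κ * lam * r) := by
        field_simp
      rw [e, le_div_iff₀ (by positivity), one_mul]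
      have h3 : lam * r < lam ^ n * lam ^ k * D := by rwa [← pow_add]
      have h4 : κ * (lam * r) ≤ κ * (lam ^ n * lam ^ k * D) := by gcongr
      have h5 : (lam ^ n * κ) * (lam ^ k * D) ≤ R * (lam ^ k * D) := by gcongr
      nlinarith
    have h3 : (m : ℝ) ^ k = ((lam ^ k)⁻¹) ^ s := by
      have h4 : (m : ℝ) = (lam ^ s)⁻¹ := eq_inv_of_mul_eq_one_left hs
      rw [h4, Real.inv_rpow hlk.le, inv_pow, ← Real.rpow_natCast (lam ^ s),
        ← Real.rpow_mul h0.le, mul_comm s, Real.rpow_mul h0.le, Real.rpow_natCast]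
    rw [h3]
    calc ((lam ^ k)⁻¹) ^ s ≤ (D / (κ * lam) * (R / r)) ^ s := by gcongr
      _ = (D / (κ * lam)) ^ s * (R / r) ^ s := Real.mul_rpow (by positivity) (by positivity)
      _ ≤ (1 + (D / (κ * lam)) ^ s) * (R / r) ^ s := by
          gcongr
          linarith

end upper

/-! ### The concrete systems -/

section concrete

/-- The contraction ratio. -/
noncomputable def lam0 : ℝ := 22 / 100

lemma lam0_pos : 0 < lam0 := by norm_num [lam0]
lemma lam0_lt : lam0 < 1 := by norm_num [lam0]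

/-- An open box of translation vectors. -/
def box {d m : ℕ} (t0 : Fin m → E d) (δ : ℝ) : Set (Fin m → E d) :=
  {t | ∀ i l, |t i l - t0 i l| < δ}

lemma isOpen_box {d m : ℕ} (t0 : Fin m → E d) (δ : ℝ) : IsOpen (box t0 δ) := by
  have e : box t0 δ = ⋂ (i : Fin m) (l : Fin d), {t | |t i l - t0 i l| < δ} := by
    ext t
    simp [box]
  rw [e]
  refine isOpen_iInter_of_finite fun i => isOpen_iInter_of_finite fun l => ?_
  have h1 : Continuous fun t : Fin m → E d => t i := continuous_apply i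
  have h2 : Continuous fun t : Fin m → E d => t i l :=
    (EuclideanSpace.proj l : E d →L[ℝ] ℝ).continuous.comp h1
  exact isOpen_lt (h2.sub continuous_const).abs continuous_const

lemma mem_box_self {d m : ℕ} (t0 : Fin m → E d) {δ : ℝ} (hδ : 0 < δ) : t0 ∈ box t0 δ := by
  intro i l
  rw [sub_self, abs_zero]
  exact hδ

lemma card_option (d : ℕ) : Fintype.card (Option (Fin d → Fin 3)) = 3 ^ d + 1 := by simp

/-- The index set: the grid `{0,1,2}^d` and one more index. -/
noncomputable def idx (d : ℕ) : Option (Fin d → Fin 3) ≃ Fin (3 ^ d + 1) :=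
  (Fintype.equivFin _).trans (finCongr (card_option d))

/-- The centre of the box of overlapping systems. -/
noncomputable def tU (d : ℕ) : Fin (3 ^ d + 1) → E d := fun i =>
  match (idx d).symm i with
  | none => 0
  | some q => WithLp.toLp 2 fun l => 42 / 100 * ((q l : ℕ) : ℝ)

lemma tU_some {d : ℕ} (q : Fin d → Fin 3) (l : Fin d) :
    tU d (idx d (some q)) l = 42 / 100 * ((q l : ℕ) : ℝ) := by
  simp [tU]

lemma tU_none {d : ℕ} (l : Fin d) : tU d (idx d none) l = 0 := by
  simp [tU]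

lemma digit_choice (x : ℝ) (hx : |x| ≤ 1) : ∃ q q' : Fin 3,
    |x + 42 / 100 * (((q : ℕ) : ℝ) - ((q' : ℕ) : ℝ))| ≤ 21 / 100 := by
  rw [abs_le] at hx
  by_cases h1 : x ≤ -63 / 100
  · refine ⟨2, 0, ?_⟩
    rw [abs_le]
    norm_num
    constructor <;> linarith
  by_cases h2 : x ≤ -21 / 100
  · refine ⟨1, 0, ?_⟩
    rw [abs_le]
    norm_num
    constructor <;> linarith
  by_cases h3 : x ≤ 21 / 100
  · refine ⟨0, 0, ?_⟩
    rw [abs_le]
    norm_num
    constructor <;> linarith
  by_cases h4 : x ≤ 63 / 100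
  · refine ⟨0, 1, ?_⟩
    rw [abs_le]
    norm_num
    constructor <;> linarith
  · refine ⟨0, 2, ?_⟩
    rw [abs_le]
    norm_num
    constructor <;> linarith

lemma control_U {d : ℕ} {t : Fin (3 ^ d + 1) → E d} (ht : t ∈ box (tU d) (4 / 1000)) :
    Control lam0 t (idx d none) := by
  have hne : ∀ q : Fin d → Fin 3, idx d (some q) ≠ idx d none := fun q h => by
    have := (idx d).injective h
    simp at this
  constructor
  · intro x hx
    choose q q' hq using fun l => digit_choice (x l) (hx l)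
    refine ⟨idx d (some q), idx d (some q'), hne q, hne q', fun l => ?_⟩
    have h1 := ht (idx d (some q)) l
    have h2 := ht (idx d (some q')) l
    have h3 := hq l
    rw [tU_some] at h1 h2
    rw [PiLp.smul_apply, PiLp.add_apply, PiLp.sub_apply, smul_eq_mul, abs_mul,
      abs_of_pos (inv_pos.mpr lam0_pos), inv_mul_le_iff₀ lam0_pos, mul_one]
    rw [abs_lt] at h1 h2
    rw [abs_le] at h3 ⊢
    unfold lam0
    constructor <;> linarith [h1.1, h1.2, h2.1, h2.2, h3.1, h3.2]
  · refine ⟨idx d (some fun _ => 0), hne _, fun l => ?_⟩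
    have h1 := ht (idx d none) l
    have h2 := ht (idx d (some fun _ => 0)) l
    rw [tU_some] at h2
    rw [tU_none] at h1
    rw [PiLp.smul_apply, PiLp.sub_apply, smul_eq_mul, abs_mul,
      abs_of_pos (inv_pos.mpr lam0_pos), inv_mul_le_iff₀ lam0_pos, mul_one]
    simp only [Fin.val_zero, Nat.cast_zero, mul_zero, sub_zero] at h1 h2
    rw [abs_lt] at h1 h2
    rw [abs_le]
    unfold lam0
    constructor <;> linarith [h1.1, h1.2, h2.1, h2.2]

/-- A point of the grid `{-1,-1/3,1/3,1}^d`. -/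
noncomputable def cube (d : ℕ) (q : Fin d → Fin 4) : E d :=
  WithLp.toLp 2 fun l => -1 + 2 / 3 * ((q l : ℕ) : ℝ)

lemma exists_emb {d : ℕ} (hd : 0 < d) : Nonempty (Fin (3 ^ d + 1) ↪ (Fin d → Fin 4)) := by
  apply Function.Embedding.nonempty_of_card_le
  simp only [Fintype.card_fin, Fintype.card_fun]
  exact Nat.succ_le_of_lt (Nat.pow_lt_pow_left (by norm_num) hd.ne')

lemma attractor_bound {d m : ℕ} {t : Fin m → E d} {F : Set (E d)}
    (hF : IsAttractor (Amap d m lam0) t F) (l : Fin d) (ht : ∀ i, |t i l| ≤ 101 / 100) :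
    ∀ x ∈ F, |x l| ≤ 101 / 78 := by
  have h2 : Continuous fun x : E d => |x l| :=
    (EuclideanSpace.proj l : E d →L[ℝ] ℝ).continuous.abs
  obtain ⟨x0, hx0, hmax⟩ := hF.2.1.exists_isMaxOn hF.1 h2.continuousOn
  have hx0' := hx0
  rw [hF.2.2] at hx0'
  obtain ⟨i, z, hz, hzx⟩ := mem_iUnion.mp hx0'
  have h3 : |z l| ≤ |x0 l| := hmax hz
  have h4 : x0 l = lam0 * z l + t i l := by
    rw [← hzx]
    simp [Amap]
  have h5 : |x0 l| ≤ lam0 * |z l| + |t i l| := by
    rw [h4]
    refine (abs_add_le _ _).trans ?_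
    rw [abs_mul, abs_of_pos lam0_pos]
  have h6 := ht i
  have h7 : |x0 l| ≤ 101 / 78 := by
    unfold lam0 at h5
    linarith
  intro x hx
  have h8 : |x l| ≤ |x0 l| := hmax hx
  exact h8.trans h7

lemma sep_V {d : ℕ} (ι : Fin (3 ^ d + 1) ↪ (Fin d → Fin 4)) {t : Fin (3 ^ d + 1) → E d}
    (ht : t ∈ box (fun i => cube d (ι i)) (1 / 100)) {F : Set (E d)}
    (hF : IsAttractor (Amap d (3 ^ d + 1) lam0) t F) :
    ∀ i j, i ≠ j → ∀ x ∈ F, ∀ y ∈ F,
      (7 / 100 : ℝ) ≤ dist (lam0 • x + t i) (lam0 • y + t j) := by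
  have hc : ∀ (q : Fin d → Fin 4) (l : Fin d), |cube d q l| ≤ 1 := by
    intro q l
    change |(-1 : ℝ) + 2 / 3 * ((q l : ℕ) : ℝ)| ≤ 1
    have h1 : ((q l : ℕ) : ℝ) ≤ 3 := by exact_mod_cast Nat.le_of_lt_succ (q l).2
    have h2 : (0 : ℝ) ≤ ((q l : ℕ) : ℝ) := Nat.cast_nonneg _
    rw [abs_le]
    constructor <;> linarith
  have hb : ∀ l, ∀ x ∈ F, |x l| ≤ 101 / 78 := by
    intro l
    apply attractor_bound hF
    intro i
    have h1 := ht i l
    have h2 := hc (ι i) l
    rw [abs_lt] at h1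
    rw [abs_le] at h2 ⊢
    constructor <;> linarith [h1.1, h1.2, h2.1, h2.2]
  intro i j hij x hx y hy
  obtain ⟨l, hl⟩ := Function.ne_iff.mp (ι.injective.ne hij)
  refine le_trans ?_ (abs_coord_sub_le _ _ l)
  rw [PiLp.add_apply, PiLp.add_apply, PiLp.smul_apply, PiLp.smul_apply, smul_eq_mul, smul_eq_mul]
  have hx' := hb l x hx
  have hy' := hb l y hy
  have h1 := ht i l
  have h2 := ht j l
  have h3 : (2 / 3 : ℝ) ≤ |cube d (ι i) l - cube d (ι j) l| := by
    change (2 / 3 : ℝ) ≤ |(-1 + 2 / 3 * ((ι i l : ℕ) : ℝ)) - (-1 + 2 / 3 * ((ι j l : ℕ) : ℝ))|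
    have e : (-1 + 2 / 3 * ((ι i l : ℕ) : ℝ)) - (-1 + 2 / 3 * ((ι j l : ℕ) : ℝ)) =
        2 / 3 * (((ι i l : ℕ) : ℝ) - ((ι j l : ℕ) : ℝ)) := by ring
    rw [e, abs_mul, abs_of_pos (by norm_num : (0 : ℝ) < 2 / 3)]
    have h1 : (1 : ℝ) ≤ |((ι i l : ℕ) : ℝ) - ((ι j l : ℕ) : ℝ)| := by
      have h2 : ((ι i l : ℕ) : ℤ) - ((ι j l : ℕ) : ℤ) ≠ 0 := by
        intro h3
        apply hl
        apply Fin.ext
        omega
      have h3 := Int.one_le_abs h2
      exact_mod_cast h3
    linarith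
  have h4 : |cube d (ι i) l - cube d (ι j) l| ≤
      |lam0 * x l + t i l - (lam0 * y l + t j l)| + lam0 * |x l| + lam0 * |y l| +
        |t i l - cube d (ι i) l| + |t j l - cube d (ι j) l| := by
    have e : cube d (ι i) l - cube d (ι j) l =
        (lam0 * x l + t i l - (lam0 * y l + t j l)) - lam0 * x l + lam0 * y l -
          (t i l - cube d (ι i) l) + (t j l - cube d (ι j) l) := by ring
    rw [e]
    refine (abs_add_le _ _).trans ?_
    gcongr
    refine (abs_sub _ _).trans ?_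
    gcongr
    refine (abs_add_le _ _).trans ?_
    rw [abs_mul, abs_of_pos lam0_pos]
    gcongr
    refine (abs_sub _ _).trans ?_
    rw [abs_mul, abs_of_pos lam0_pos]
  unfold lam0 at *
  linarith

/-- The similarity dimension. -/
noncomputable def sdim (d : ℕ) : ℝ := Real.log (3 ^ d + 1) / Real.log (lam0⁻¹)

lemma log_lam0_inv_pos : 0 < Real.log (lam0⁻¹) := by
  apply Real.log_pos
  norm_num [lam0]

lemma sdim_nonneg (d : ℕ) : 0 ≤ sdim d := by
  apply div_nonneg _ log_lam0_inv_pos.le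
  apply Real.log_nonneg
  have : (0 : ℝ) < 3 ^ d := by positivity
  linarith

lemma sdim_spec (d : ℕ) : ((3 ^ d + 1 : ℕ) : ℝ) * lam0 ^ sdim d = 1 := by
  have h1 : lam0 ^ sdim d = ((3 : ℝ) ^ d + 1)⁻¹ := by
    rw [Real.rpow_def_of_pos lam0_pos]
    have h2 : Real.log lam0 = - Real.log (lam0⁻¹) := by rw [Real.log_inv, neg_neg]
    rw [h2, sdim, neg_mul, mul_div_cancel₀ _ log_lam0_inv_pos.ne', Real.exp_neg, Real.exp_log]
    positivity
  rw [h1]
  push_cast
  exact mul_inv_cancel₀ (by positivity)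

lemma sdim_lt {d : ℕ} (hd : 0 < d) : sdim d < d := by
  rw [sdim, div_lt_iff₀ log_lam0_inv_pos, ← Real.log_pow]
  apply Real.log_lt_log (by positivity)
  have h1 : 3 ^ d + 1 ≤ 4 ^ d :=
    Nat.succ_le_of_lt (Nat.pow_lt_pow_left (by norm_num) hd.ne')
  have h2 : ((3 : ℝ) ^ d + 1) ≤ 4 ^ d := by exact_mod_cast h1
  refine h2.trans_lt ?_
  apply pow_lt_pow_left₀ _ (by norm_num) hd.ne'
  norm_num [lam0]

lemma diam_pos_U {d : ℕ} (hd : 0 < d) {t : Fin (3 ^ d + 1) → E d}
    (ht : t ∈ box (tU d) (4 / 1000)) {F : Set (E d)}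
    (hF : IsAttractor (Amap d (3 ^ d + 1) lam0) t F) : 0 < Metric.diam F := by
  obtain ⟨x, hx⟩ := hF.1
  have h1 := mem_of_word hF [idx d (some fun _ => 0)] hx
  have h2 := mem_of_word hF [idx d (some fun _ => 2)] hx
  rw [cc_singleton] at h1 h2
  refine lt_of_lt_of_le ?_ (Metric.dist_le_diam_of_mem hF.2.1.isBounded h2 h1)
  rw [List.length_singleton, List.length_singleton, dist_add_left]
  refine lt_of_lt_of_le ?_ (abs_coord_sub_le _ _ ⟨0, hd⟩)
  have h3 := ht (idx d (some fun _ => 0)) ⟨0, hd⟩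
  have h4 := ht (idx d (some fun _ => 2)) ⟨0, hd⟩
  rw [tU_some] at h3 h4
  have e : (((2 : Fin 3) : ℕ) : ℝ) = 2 := by norm_num
  rw [e] at h4
  simp only [Fin.val_zero, Nat.cast_zero, mul_zero, sub_zero] at h3
  rw [abs_lt] at h3 h4
  refine lt_of_lt_of_le ?_ (le_abs_self _)
  linarith [h3.1, h3.2, h4.1, h4.2]

theorem result (d : ℕ) (hd : 1 ≤ d) : ∃ m : ℕ, 2 ≤ m ∧ ∃ A : Fin m → E d →L[ℝ] E d,
    (∀ i, Function.Bijective (A i) ∧ ‖A i‖ < 1 / 2) ∧
    (∀ t, ∃ F, IsAttractor A t F) ∧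
    (∃ s : ℝ, s < d ∧ ∃ U V : Set (Fin m → E d),
      IsOpen U ∧ U.Nonempty ∧ IsOpen V ∧ V.Nonempty ∧
      (∀ᵐ t, t ∈ U → ∀ F, IsAttractor A t F → (d : ℝ≥0∞) ≤ dimA F ∧ dimL F ≤ ENNReal.ofReal s) ∧
      (∀ t ∈ V, ∀ F, IsAttractor A t F → dimA F ≤ ENNReal.ofReal s)) ∧
    (¬ ∀ᵐ t, ∀ F, IsAttractor A t F → dimA F = dimL F) ∧
    (¬ ∃ a : ℝ≥0∞, ∀ᵐ t, ∀ F, IsAttractor A t F → dimA F = a) := by
  have hd' : 0 < d := hd
  have hm : 0 < 3 ^ d + 1 := by positivity
  have hm2 : 2 ≤ 3 ^ d + 1 := by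
    have : 0 < 3 ^ d := by positivity
    omega
  obtain ⟨ι⟩ := exists_emb hd'
  have hex : ∀ t, ∃ F, IsAttractor (Amap d (3 ^ d + 1) lam0) t F :=
    exists_attractor hm lam0_pos lam0_lt
  have hs : ENNReal.ofReal (sdim d) < (d : ℝ≥0∞) := by
    rw [← ENNReal.ofReal_natCast]
    apply (ENNReal.ofReal_lt_ofReal_iff (by exact_mod_cast hd')).mpr (sdim_lt hd')
  have hUo := isOpen_box (tU d) (4 / 1000)
  have hVo := isOpen_box (fun i => cube d (ι i)) (1 / 100)
  have hUn : (box (tU d) (4 / 1000)).Nonempty := ⟨_, mem_box_self _ (by norm_num)⟩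
  have hVn : (box (fun i => cube d (ι i)) (1 / 100)).Nonempty := ⟨_, mem_box_self _ (by norm_num)⟩
  have hU : ∀ᵐ t, t ∈ box (tU d) (4 / 1000) → ∀ F, IsAttractor (Amap d (3 ^ d + 1) lam0) t F →
      (d : ℝ≥0∞) ≤ dimA F ∧ dimL F ≤ ENNReal.ofReal (sdim d) := by
    filter_upwards [ae_good lam0_pos lam0_lt hUo fun t ht => control_U ht] with t ht htU F hF
    exact ⟨dimA_ge hd' lam0_pos lam0_lt (ht htU) hF,
      dimL_le lam0_pos lam0_lt hm hF (diam_pos_U hd' htU hF) (sdim_spec d)⟩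
  have hV : ∀ t ∈ box (fun i => cube d (ι i)) (1 / 100), ∀ F,
      IsAttractor (Amap d (3 ^ d + 1) lam0) t F → dimA F ≤ ENNReal.ofReal (sdim d) := by
    intro t ht F hF
    have h1 := assouadBound_of_sep lam0_pos lam0_lt hm hF (by norm_num : (0 : ℝ) < 7 / 100)
      (sep_V ι ht hF) (sdim_nonneg d) (sdim_spec d)
    refine iInf₂_le_of_le (Real.toNNReal (sdim d)) ?_ ?_
    · rw [Real.coe_toNNReal _ (sdim_nonneg d)]
      exact h1
    · exact le_rfl
  -- an almost sure property holds somewhere in every nonempty open set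
  have hpick : ∀ {P : (Fin (3 ^ d + 1) → E d) → Prop} {W : Set (Fin (3 ^ d + 1) → E d)},
      (∀ᵐ t, P t) → IsOpen W → W.Nonempty → ∃ t ∈ W, P t := by
    intro P W hP hW hWn
    by_contra hcon
    push Not at hcon
    have h1 : W ⊆ {t | ¬ P t} := fun t ht => hcon t ht
    have h2 : volume W = 0 := measure_mono_null h1 hP
    exact (hW.measure_pos volume hWn).ne' h2
  refine ⟨3 ^ d + 1, hm2, Amap d (3 ^ d + 1) lam0, ?_, hex, ⟨sdim d, sdim_lt hd', _, _, hUo, hUn,
    hVo, hVn, hU, hV⟩, ?_, ?_⟩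
  · intro i
    constructor
    · have e : ⇑(Amap d (3 ^ d + 1) lam0 i) = fun x => lam0 • x := by
        funext x
        simp [Amap]
      rw [e]
      exact ⟨smul_right_injective _ lam0_pos.ne', fun y => ⟨lam0⁻¹ • y, by
        simp only
        rw [smul_inv_smul₀ lam0_pos.ne']⟩⟩
    · have hb : ‖Amap d (3 ^ d + 1) lam0 i‖ ≤ lam0 := by
        refine ContinuousLinearMap.opNorm_le_bound _ lam0_pos.le fun x => ?_
        have e : Amap d (3 ^ d + 1) lam0 i x = lam0 • x := by simp [Amap]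
        rw [e, norm_smul, Real.norm_eq_abs, abs_of_pos lam0_pos]
      refine hb.trans_lt ?_
      norm_num [lam0]
  · intro hcon
    obtain ⟨t, ht, h1, h2⟩ := hpick (hU.and hcon) hUo hUn
    obtain ⟨F, hF⟩ := hex t
    obtain ⟨h3, h4⟩ := h1 ht F hF
    rw [h2 F hF] at h3
    exact absurd (h3.trans h4) (not_le.mpr hs)
  · rintro ⟨a, ha⟩
    obtain ⟨t, ht, h1, h2⟩ := hpick (hU.and ha) hUo hUn
    obtain ⟨F, hF⟩ := hex t
    obtain ⟨h3, h4⟩ := h1 ht F hF
    rw [h2 F hF] at h3
    obtain ⟨t', ht', h5⟩ := hpick ha hVo hVn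
    obtain ⟨F', hF'⟩ := hex t'
    have h6 := hV t' ht' F' hF'
    rw [h5 F' hF'] at h6
    exact absurd (h3.trans h6) (not_le.mpr hs)

end concrete

end Pool.Agent.Results.MP_b039ef_an.RandomTranslations
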